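import Pool.Agent.H13.K2S.OcDefs
import Pool.Agent.H54.KVA.Defs2
import Pool.Agent.H37.STPA.Reg2

/-!
# Board kslo, row H1F: the time in the contexts of the slope law

`q` is a law on the sample space of a family for which the time given the line (and the side
information) has deficit at most `e`; for the restriction of a regular maximal family to a large
event this is `timeA`. A context `b` is a function of the line and of the window. In all but a
small part of the contexts the time is nearly independent of the line and its digits after the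
window are full; there are windows `w + i` with small `i` after which the first digits have a
small deficit.
-/

set_option autoImplicit false

namespace Pool.Agent.H25.M5

open Finset Real
open Pool.Agent.H49.Ent Pool.Agent.H32.Dense Pool.STK Pool.KA Pool.KSAT Pool.K2S

variable {m J : ℕ}

/-! ### Averages over the values of a variable -/

section avg

variable {Ω S T U β : Type} [Fintype Ω]

/-- Conditional entropies given the context are averages over the contexts. -/
lemma Ex_CH {p : Ω → ℝ} (hp : ∀ ω, 0 ≤ p ω) (X : Ω → S) (W : Ω → T) (b : Ω → β) :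
    Ex p (fun ω => CH (cond p b (b ω)) X W) = CH p X (fun ω => (W ω, b ω)) := by
  classical
  unfold Ex
  rw [CH_split hp X W b, sum_mul_eq_sum_image p b (fun z => CH (cond p b z) X W)]

/-- Markov. -/
lemma markov {p : Ω → ℝ} (hp : IsLaw p) (f : Ω → ℝ) (hf : ∀ ω, 0 < p ω → 0 ≤ f ω) {e ε : ℝ}
    (he : Ex p f ≤ e) (hε : 0 < ε) (he0 : 0 < e) :
    Pool.KAF.Pr p {ω | e / ε < f ω} ≤ ε := by
  classical
  have h0 := hp.nonneg
  have h1 : Pool.KAF.Pr p {ω | e / ε < f ω} * (e / ε) ≤ Ex p f := by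
    unfold Pool.KAF.Pr law Ex
    rw [Finset.sum_mul]
    refine Finset.sum_le_sum fun ω _ => ?_
    by_cases hω : e / ε < f ω
    · have h2 : (ω ∈ {ω | e / ε < f ω}) = True := by
        rw [eq_iff_iff, iff_true]
        exact hω
      rw [if_pos h2]
      exact mul_le_mul_of_nonneg_left hω.le (h0 ω)
    · have h2 : ¬ ((ω ∈ {ω | e / ε < f ω}) = True) := by
        rw [eq_iff_iff, iff_true]
        exact hω
      rw [if_neg h2, zero_mul]
      rcases (h0 ω).eq_or_lt with h3 | h3
      · rw [← h3, zero_mul]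
      · exact mul_nonneg h3.le (hf ω h3)
  have h2 : 0 < e / ε := div_pos he0 hε
  have h3 : Pool.KAF.Pr p {ω | e / ε < f ω} * (e / ε) ≤ e := h1.trans he
  have h4 : Pool.KAF.Pr p {ω | e / ε < f ω} * e ≤ e * ε := by
    have h5 := mul_le_mul_of_nonneg_right h3 hε.le
    have h6 : Pool.KAF.Pr p {ω | e / ε < f ω} * (e / ε) * ε =
        Pool.KAF.Pr p {ω | e / ε < f ω} * e := by
      field_simp
    linarith
  nlinarith

/-- Additional digits in the first variable. -/
lemma MI_pair_le {p : Ω → ℝ} (hp : ∀ ω, 0 ≤ p ω) (A : Ω → S) (D : Ω → U) (B : Ω → T)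
    (b : Ω → β) :
    Pool.KVA.MI p (fun ω => (A ω, D ω)) B b ≤
      Pool.KVA.MI p A B b + CH p D (fun ω => (A ω, b ω)) := by
  have h1 : CH p (fun ω => (A ω, D ω)) b = CH p A b + CH p D (fun ω => (A ω, b ω)) := by
    have h2 : CH p (fun ω => (A ω, D ω)) b = CH p (fun ω => (D ω, A ω)) b := by
      refine CH_congr hp ?_ ?_ (fun _ _ _ _ h => h) (fun _ _ _ _ h => h) <;>
      · intro ω ω' _ _ h
        simp only [Prod.mk.injEq] at h ⊢
        tauto
    rw [h2, CH_chain hp]
  have h3 : CH p (fun ω => (A ω, B ω)) b ≤ CH p (fun ω => ((A ω, D ω), B ω)) b :=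
    CH_mono_left hp fun ω ω' _ _ h => by
      simp only [Prod.mk.injEq] at h ⊢
      tauto
  unfold Pool.KVA.MI
  linarith

end avg

/-! ### The digits of the time -/

theorem T1_lt (F : Fam m J) {w : ℕ} (h : w ≤ J) (ω : F.Ω) : F.T1 w ω < 2 ^ w := by
  unfold Fam.T1
  rw [Nat.div_lt_iff_lt_mul (by positivity), ← pow_add]
  have h1 := F.tim ω
  have e1 : w + (J - w) = J := by omega
  rwa [e1]

theorem T1_J (F : Fam m J) (ω : F.Ω) : F.T1 J ω = F.T ω := by
  unfold Fam.T1
  rw [Nat.sub_self, pow_zero, Nat.div_one]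

theorem T1_div (F : Fam m J) {w w' : ℕ} (h : w ≤ w') (h' : w' ≤ J) (ω : F.Ω) :
    F.T1 w ω = F.T1 w' ω / 2 ^ (w' - w) := by
  unfold Fam.T1
  rw [Nat.div_div_eq_div_mul, ← pow_add]
  congr 2
  omega

/-- The digits of the time in the window. -/
theorem floor_tw (F : Fam m J) {w X : ℕ} (h : w + X ≤ J) (ω : F.Ω) :
    ⌊(2 : ℝ) ^ X * F.tw w ω⌋ = (F.T1 (w + X) ω : ℤ) - 2 ^ X * (F.T1 w ω : ℤ) := by
  have e1 : (2 : ℝ) ^ X * F.tw w ω = (F.T ω : ℝ) / ((2 ^ (J - (w + X)) : ℕ) : ℝ) +
      ((-(2 ^ X * (F.T1 w ω : ℤ)) : ℤ) : ℝ) := by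
    unfold Fam.tw Fam.t
    have h1 : (2 : ℝ) ^ J = 2 ^ (w + X) * 2 ^ (J - (w + X)) := by
      rw [← pow_add]
      congr 1
      omega
    push_cast
    rw [h1, pow_add]
    field_simp
    ring
  rw [e1, Int.floor_add_intCast, Int.floor_div_natCast, Int.floor_natCast]
  unfold Fam.T1
  push_cast
  ring

/-- The time deficit up to the digit `w`. -/
noncomputable def dfc (F : Fam m J) (q : F.Ω → ℝ) (w : ℕ) : ℝ :=
  w * Real.log 2 - CH q (F.T1 w) (fun ω => (F.l ω, F.Z ω))

section law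

variable {F : Fam m J} {q : F.Ω → ℝ}

theorem CH_T1 (hq : IsLaw q) {w w' : ℕ} (h : w ≤ w') (h' : w' ≤ J) :
    CH q (F.T1 w') (slam F w) = CH q (F.T1 w') (fun ω => (F.l ω, F.Z ω)) -
      CH q (F.T1 w) (fun ω => (F.l ω, F.Z ω)) := by
  have h0 := hq.nonneg
  have h1 : CH q (F.T1 w') (fun ω => (F.l ω, F.Z ω)) =
      CH q (F.T1 w) (fun ω => (F.l ω, F.Z ω)) +
        CH q (F.T1 w') (fun ω => (F.T1 w ω, (F.l ω, F.Z ω))) := by
    rw [← CH_chain h0]
    refine CH_congr h0 ?_ ?_ (fun _ _ _ _ h => h) (fun _ _ _ _ h => h)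
    · intro ω ω' _ _ e
      have e1 := (Prod.ext_iff.mp e).1
      refine Prod.ext e1 ?_
      change F.T1 w ω = F.T1 w ω'
      rw [T1_div F h h', T1_div F h h']
      rw [show F.T1 w' ω = F.T1 w' ω' from e1]
    · intro ω ω' _ _ e
      exact (Prod.ext_iff.mp (Prod.ext_iff.mp e).1).1
  have h2 : CH q (F.T1 w') (fun ω => (F.T1 w ω, (F.l ω, F.Z ω))) =
      CH q (F.T1 w') (slam F w) := by
    unfold slam
    refine CH_congr h0 ?_ ?_ ?_ ?_ <;>
    · intro ω ω' _ _ e
      simp only [Prod.mk.injEq] at e ⊢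
      tauto
  linarith

/-- Given the window, there are at most `w' - w` digits. -/
theorem CH_T1_le (hq : IsLaw q) {w w' : ℕ} (h : w ≤ w') (h' : w' ≤ J) {S : Type} (W : F.Ω → S)
    (hW : Det q W (F.T1 w)) : CH q (F.T1 w') W ≤ ((w' - w : ℕ) : ℝ) * Real.log 2 := by
  have h0 := hq.nonneg
  have h1 := TRC.CH_div hq (F.T1 w') W (w' - w)
  refine le_trans (CH_mono_cond h0 fun ω ω' a b e => ?_) h1
  refine Prod.ext ?_ e
  change F.T1 w' ω / _ = F.T1 w' ω' / _
  rw [← T1_div F h h', ← T1_div F h h']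
  exact hW ω ω' a b e

theorem dfc_mono (hq : IsLaw q) {w w' : ℕ} (h : w ≤ w') (h' : w' ≤ J) :
    dfc F q w ≤ dfc F q w' := by
  have h1 := CH_T1 hq h h'
  have h2 := CH_T1_le hq h h' (slam F w) (fun ω ω' _ _ e =>
    (Prod.ext_iff.mp (Prod.ext_iff.mp e).2).2)
  have h3 : (((w' - w : ℕ) : ℝ)) = (w' : ℝ) - w := by rw [Nat.cast_sub h]
  rw [h3] at h2
  unfold dfc
  linarith

theorem dfc_nonneg (hq : IsLaw q) {w : ℕ} (h : w ≤ J) : 0 ≤ dfc F q w := by
  have h1 := TRC.CH_lt hq (F.T1 w) (fun ω => (F.l ω, F.Z ω)) w (T1_lt F h)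
  unfold dfc
  linarith

variable {e : ℝ} (he : (J : ℝ) * Real.log 2 - e ≤ CH q F.T (fun ω => (F.l ω, F.Z ω)))

include he in
theorem dfc_le (hq : IsLaw q) {w : ℕ} (h : w ≤ J) : dfc F q w ≤ e := by
  refine (dfc_mono hq h le_rfl).trans ?_
  have h1 : F.T1 J = F.T := funext (T1_J F)
  unfold dfc
  rw [h1]
  linarith

include he in
/-- **The digits of the time after the window are full.** -/
theorem time_full (hq : IsLaw q) {w w' : ℕ} (h : w ≤ w') (h' : w' ≤ J) :
    ((w' - w : ℕ) : ℝ) * Real.log 2 - e ≤ CH q (F.T1 w') (slam F w) := by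
  have h1 := CH_T1 hq h h'
  have h2 := dfc_le he hq h'
  have h3 := dfc_nonneg hq (h.trans h')
  have h4 : (((w' - w : ℕ) : ℝ)) = (w' : ℝ) - w := by rw [Nat.cast_sub h]
  unfold dfc at h2 h3
  rw [h4]
  linarith

include he in
/-- **The time is nearly independent of the line in the contexts.** -/
theorem MI_time (hq : IsLaw q) {w : ℕ} (h : w ≤ J) {β : Type} (b : F.Ω → β)
    (hb : Det q (slam F w) b) (hw : Det q b (F.T1 w)) :
    Pool.KVA.MI q F.T (slam F w) b ≤ e := by
  have h0 := hq.nonneg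
  have hJ : F.T1 J = F.T := funext (T1_J F)
  have h1 := time_full he hq h le_rfl
  have h2 := CH_T1_le hq h le_rfl b hw
  rw [hJ] at h1 h2
  have h3 := CH_chain h0 F.T (slam F w) b
  have h4 : CH q F.T (fun ω => (slam F w ω, b ω)) = CH q F.T (slam F w) := by
    refine CH_congr h0 (fun ω ω' _ _ e => (Prod.ext_iff.mp e).1)
      (fun ω ω' _ _ e => (Prod.ext_iff.mp e).1) (fun ω ω' _ _ e => (Prod.ext_iff.mp e).1) ?_
    intro ω ω' a c e
    exact Prod.ext e (hb ω ω' a c e)
  unfold Pool.KVA.MI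
  linarith

/-- The digits after the windows `w + i`, for most `i`. -/
theorem sum_alive (w I k : ℕ) :
    ∑ i ∈ range I, (dfc F q (w + i + k) - dfc F q (w + i)) =
      ∑ j ∈ range k, (dfc F q (w + I + j) - dfc F q (w + j)) := by
  induction I with
  | zero => simp
  | succ I ih =>
    rw [Finset.sum_range_succ, ih]
    have h1 := Finset.sum_range_sub (fun j => dfc F q (w + I + j)) k
    have h2 : ∑ j ∈ range k, (dfc F q (w + (I + 1) + j) - dfc F q (w + j)) =
        ∑ j ∈ range k, (dfc F q (w + I + (j + 1)) - dfc F q (w + I + j)) +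
          ∑ j ∈ range k, (dfc F q (w + I + j) - dfc F q (w + j)) := by
      rw [← Finset.sum_add_distrib]
      refine Finset.sum_congr rfl fun j _ => ?_
      have : w + (I + 1) + j = w + I + (j + 1) := by ring
      rw [this]
      ring
    rw [h2, h1]
    simp only [add_zero]
    ring

include he in
/-- **Windows after which the first digits are alive.** -/
theorem alive (hq : IsLaw q) {w I k : ℕ} (hI : 0 < I) (h : w + I + k ≤ J) :
    ∃ i < I, ((k : ℝ) * Real.log 2 - k * e / I) ≤ CH q (F.T1 (w + i + k)) (slam F (w + i)) := by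
  by_contra hcon
  push Not at hcon
  have hI' : (0 : ℝ) < I := by exact_mod_cast hI
  have h1 : ∀ i ∈ range I, k * e / I < dfc F q (w + i + k) - dfc F q (w + i) := by
    intro i hi
    rw [Finset.mem_range] at hi
    have h2 := hcon i hi
    have h3 := CH_T1 hq (F := F) (w := w + i) (w' := w + i + k) (by omega) (by omega)
    unfold dfc
    push_cast
    linarith
  have h2 := Finset.sum_lt_sum_of_nonempty (Finset.nonempty_range_iff.2 hI.ne') h1
  rw [sum_alive, Finset.sum_const, Finset.card_range, nsmul_eq_mul] at h2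
  have h3 : ∑ j ∈ range k, (dfc F q (w + I + j) - dfc F q (w + j)) ≤ ∑ _j ∈ range k, e := by
    refine Finset.sum_le_sum fun j hj => ?_
    rw [Finset.mem_range] at hj
    have h4 := dfc_le he hq (w := w + I + j) (by omega)
    have h5 := dfc_nonneg hq (F := F) (w := w + j) (by omega)
    linarith
  rw [Finset.sum_const, Finset.card_range, nsmul_eq_mul] at h3
  have h4 : (I : ℝ) * (k * e / I) = k * e := by field_simp
  linarith

/-! ### The contexts -/

/-- In the law given a context the entropies are those of the digits of the time. -/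
theorem ctx_digits (hq : IsLaw q) {w X : ℕ} (h : w + X ≤ J) :
    CH q (fun ω => ⌊(2 : ℝ) ^ X * F.tw w ω⌋) (slam F w) = CH q (F.T1 (w + X)) (slam F w) := by
  have h0 := hq.nonneg
  refine CH_congr h0 ?_ ?_ (fun _ _ _ _ h => h) (fun _ _ _ _ h => h)
  · intro ω ω' _ _ e
    have e1 := Prod.ext_iff.mp e
    have e2 : F.T1 w ω = F.T1 w ω' := (Prod.ext_iff.mp (Prod.ext_iff.mp e1.2).2).2
    have e3 : ⌊(2 : ℝ) ^ X * F.tw w ω⌋ = ⌊(2 : ℝ) ^ X * F.tw w ω'⌋ := e1.1
    rw [floor_tw F h, floor_tw F h, e2] at e3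
    have e4 : (F.T1 (w + X) ω : ℤ) = F.T1 (w + X) ω' := by linarith
    exact_mod_cast e4
  · intro ω ω' _ _ e
    have e1 := Prod.ext_iff.mp e
    have e2 : F.T1 w ω = F.T1 w ω' := (Prod.ext_iff.mp (Prod.ext_iff.mp e1.2).2).2
    have e3 : F.T1 (w + X) ω = F.T1 (w + X) ω' := e1.1
    change ⌊(2 : ℝ) ^ X * F.tw w ω⌋ = ⌊(2 : ℝ) ^ X * F.tw w ω'⌋
    rw [floor_tw F h, floor_tw F h, e2, e3]

include he in
/-- (H1), second part: the digits of the time in the window are full. -/
theorem h1_full (hq : IsLaw q) {w X : ℕ} (h : w + X ≤ J) :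
    (X : ℝ) * Real.log 2 - e ≤ CH q (fun ω => ⌊(2 : ℝ) ^ X * F.tw w ω⌋) (slam F w) := by
  rw [ctx_digits hq h]
  have h1 := time_full he hq (w := w) (w' := w + X) (by omega) h
  rwa [Nat.add_sub_cancel_left] at h1

include he in
/-- (H1), first part: `T` contains the time and additional digits `D`. -/
theorem h1_MI (hq : IsLaw q) {w : ℕ} (h : w ≤ J) {β U : Type} (b : F.Ω → β) (D : F.Ω → U)
    (hb : Det q (slam F w) b) (hw : Det q b (F.T1 w)) :
    Pool.KVA.MI q (fun ω => (F.T ω, D ω)) (slam F w) b ≤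
      e + CH q D (fun ω => (F.T ω, b ω)) := by
  have h1 := MI_pair_le hq.nonneg F.T D (slam F w) b
  have h2 := MI_time he hq h b hb hw
  linarith

include he in
/-- (H1), third part: finitely many blocks of digits at the places `w + i + s j` are alive, for
a common `i < I`. -/
theorem h1_alive (hq : IsLaw q) {n : ℕ} (s k : Fin n → ℕ) {w I : ℕ} (hI : 0 < I)
    (h : ∀ j, w + I + s j + k j ≤ J) :
    ∃ i < I, ∀ j, ((k j : ℝ) * Real.log 2 - (∑ j, (k j : ℝ)) * e / I) ≤
      CH q (fun ω => ⌊(2 : ℝ) ^ k j * F.tw (w + i + s j) ω⌋) (slam F (w + i + s j)) := by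
  have hI' : (0 : ℝ) < I := by exact_mod_cast hI
  -- the deficits
  have hd : ∀ i < I, ∀ j, dfc F q (w + i + s j + k j) - dfc F q (w + i + s j) =
      k j * Real.log 2 -
        CH q (fun ω => ⌊(2 : ℝ) ^ k j * F.tw (w + i + s j) ω⌋) (slam F (w + i + s j)) := by
    intro i hi j
    have h1 := h j
    rw [ctx_digits hq (by omega)]
    have h3 := CH_T1 hq (F := F) (w := w + i + s j) (w' := w + i + s j + k j) (by omega)
      (by omega)
    unfold dfc
    push_cast
    linarith
  have hpos : ∀ i < I, ∀ j, 0 ≤ dfc F q (w + i + s j + k j) - dfc F q (w + i + s j) := by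
    intro i hi j
    have h1 := h j
    have := dfc_mono (F := F) hq (w := w + i + s j) (w' := w + i + s j + k j) (by omega)
      (by omega)
    linarith
  have hsum : ∀ j, ∑ i ∈ range I, (dfc F q (w + i + s j + k j) - dfc F q (w + i + s j)) ≤
      k j * e := by
    intro j
    have h1 := h j
    have h2 := sum_alive (F := F) (q := q) (w + s j) I (k j)
    have h3 : ∑ i ∈ range I, (dfc F q (w + i + s j + k j) - dfc F q (w + i + s j)) =
        ∑ i ∈ range I, (dfc F q (w + s j + i + k j) - dfc F q (w + s j + i)) := by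
      refine Finset.sum_congr rfl fun i _ => ?_
      have e1 : w + i + s j = w + s j + i := by ring
      rw [e1]
    rw [h3, h2]
    calc _ ≤ ∑ _l ∈ range (k j), e := by
          refine Finset.sum_le_sum fun l hl => ?_
          rw [Finset.mem_range] at hl
          have h4 := dfc_le he hq (w := w + s j + I + l) (by omega)
          have h5 := dfc_nonneg hq (F := F) (w := w + s j + l) (by omega)
          linarith
      _ = k j * e := by rw [Finset.sum_const, Finset.card_range, nsmul_eq_mul]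
  by_contra hcon
  push Not at hcon
  have h1 : ∀ i ∈ range I, (∑ j, (k j : ℝ)) * e / I <
      ∑ j, (dfc F q (w + i + s j + k j) - dfc F q (w + i + s j)) := by
    intro i hi
    rw [Finset.mem_range] at hi
    obtain ⟨j, hj⟩ := hcon i hi
    have h2 := hd i hi j
    have h3 := Finset.single_le_sum (f := fun j => dfc F q (w + i + s j + k j) -
      dfc F q (w + i + s j)) (fun j _ => hpos i hi j) (Finset.mem_univ j)
    linarith
  have h2 := Finset.sum_lt_sum_of_nonempty (Finset.nonempty_range_iff.2 hI.ne') h1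
  rw [Finset.sum_comm, Finset.sum_const, Finset.card_range, nsmul_eq_mul] at h2
  have h3 := Finset.sum_le_sum fun j (_ : j ∈ (Finset.univ : Finset (Fin n))) => hsum j
  rw [← Finset.sum_mul] at h3
  have h4 : (I : ℝ) * ((∑ j, (k j : ℝ)) * e / I) = (∑ j, (k j : ℝ)) * e := by field_simp
  linarith

/-- If a block of digits is full on the average, it is full in most contexts. -/
theorem ctx_full (hq : IsLaw q) {w X : ℕ} (h : w + X ≤ J) {β : Type} (b : F.Ω → β)
    (hb : Det q (slam F w) b) {c ε : ℝ} (hc : 0 < c) (hε : 0 < ε)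
    (hx : (X : ℝ) * Real.log 2 - c ≤ CH q (F.T1 (w + X)) (slam F w)) :
    Pool.KAF.Pr q {ω | CH (cond q b (b ω)) (fun ω' => ⌊(2 : ℝ) ^ X * F.tw w ω'⌋) (slam F w) <
      X * Real.log 2 - c / ε} ≤ ε := by
  classical
  have h0 := hq.nonneg
  have hl : ∀ ω, 0 < q ω → IsLaw (cond q b (b ω)) := fun ω hω =>
    ⟨cond_nonneg h0 b _, sum_cond q b (law_pos h0 b hω).ne'⟩
  have h1 : Ex q (fun ω => X * Real.log 2 - CH (cond q b (b ω))
      (fun ω' => ⌊(2 : ℝ) ^ X * F.tw w ω'⌋) (slam F w)) ≤ c := by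
    rw [Ex_sub, Ex_const hq.sum_one, Ex_CH h0]
    have h2 : CH q (fun ω' => ⌊(2 : ℝ) ^ X * F.tw w ω'⌋) (fun ω => (slam F w ω, b ω)) =
        CH q (fun ω' => ⌊(2 : ℝ) ^ X * F.tw w ω'⌋) (slam F w) := by
      refine CH_congr h0 (fun ω ω' _ _ e => (Prod.ext_iff.mp e).1)
        (fun ω ω' _ _ e => (Prod.ext_iff.mp e).1) (fun ω ω' _ _ e => (Prod.ext_iff.mp e).1) ?_
      intro ω ω' a c e
      exact Prod.ext e (hb ω ω' a c e)
    rw [h2, ctx_digits hq h]
    linarith
  have h2 := markov hq (fun ω => X * Real.log 2 - CH (cond q b (b ω))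
      (fun ω' => ⌊(2 : ℝ) ^ X * F.tw w ω'⌋) (slam F w)) (fun ω hω => by
        have h3 := CH_T1_le (F := F) (hl ω hω) (w := w) (w' := w + X) (by omega) h (slam F w)
          (fun ω ω' _ _ e => (Prod.ext_iff.mp (Prod.ext_iff.mp e).2).2)
        rw [Nat.add_sub_cancel_left] at h3
        have h4 := ctx_digits (F := F) (hl ω hω) h
        linarith) h1 hε hc
  refine le_trans (le_of_eq ?_) h2
  congr 1
  ext ω
  simp only [Set.mem_ofPred_eq]
  constructor
  · intro hω
    linarith
  · intro hω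
    linarith

/-- If the time is nearly independent of the line on the average, this is so in most contexts. -/
theorem ctx_MI (hq : IsLaw q) {w : ℕ} {β U : Type} (b : F.Ω → β) (D : F.Ω → U) {c ε : ℝ}
    (hc : 0 < c) (hε : 0 < ε)
    (hx : Pool.KVA.MI q (fun ω => (F.T ω, D ω)) (slam F w) b ≤ c) :
    Pool.KAF.Pr q {ω | c / ε < Pool.KVA.MI (cond q b (b ω)) (fun ω' => (F.T ω', D ω')) (slam F w)
      (fun _ => ())} ≤ ε := by
  classical
  have h0 := hq.nonneg
  have hl : ∀ ω, 0 < q ω → IsLaw (cond q b (b ω)) := fun ω hω =>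
    ⟨cond_nonneg h0 b _, sum_cond q b (law_pos h0 b hω).ne'⟩
  have hu : ∀ {S : Type} (X : F.Ω → S), CH q X (fun ω => ((), b ω)) = CH q X b := by
    intro S X
    refine CH_congr h0 (fun ω ω' _ _ e => (Prod.ext_iff.mp e).1)
      (fun ω ω' _ _ e => (Prod.ext_iff.mp e).1) (fun ω ω' _ _ e => (Prod.ext_iff.mp e).2) ?_
    intro ω ω' _ _ e
    exact Prod.ext rfl e
  refine markov hq _ (fun ω hω => ?_) ?_ hε hc
  · have := CH_subadd (hl ω hω).nonneg (fun ω' => (F.T ω', D ω')) (slam F w) (fun _ => ())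
    unfold Pool.KVA.MI
    linarith
  · refine le_trans (le_of_eq ?_) hx
    unfold Pool.KVA.MI
    rw [Ex_sub, Ex_add, Ex_CH h0, Ex_CH h0, Ex_CH h0, hu, hu, hu]

end law

/-- **The time on large events of regular maximal families.** -/
theorem timeA (F : Fam m J) {a R τ : ℝ} {A : F.Ω → Prop} (h : Fam.Stt F a R τ A) :
    IsLaw (Pool.Agent.H49.Ent.cond F.p A True) ∧
      (J : ℝ) * Real.log 2 - 6 * (τ * J) ≤
        CH (Pool.Agent.H49.Ent.cond F.p A True) F.T (fun ω => (F.l ω, F.Z ω)) := by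
  obtain ⟨hTr, hMx, hRb, hA⟩ := h
  have hA0 : 0 < Pe F.p A := lt_of_lt_of_le (Real.exp_pos _) hA
  refine ⟨isLaw_cond F.isLaw hA0, ?_⟩
  have h1 := Pool.STPA.sub_Tm_of_reg hTr hMx.1 hRb hA0 hA
  unfold Fam.Tm at h1
  have h2 : CH (Pool.FLF.Fam.sub F A hA0).p (Pool.FLF.Fam.sub F A hA0).T
      (fun ω => ((Pool.FLF.Fam.sub F A hA0).l ω, (Pool.FLF.Fam.sub F A hA0).Z ω)) =
      CH (Pool.Agent.H49.Ent.cond F.p A True) F.T (fun ω => (F.l ω, F.Z ω)) :=
    Pool.FLF.sub_marg.CH F.T (fun ω => (F.l ω, F.Z ω))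
  rw [h2] at h1
  linarith

end Pool.Agent.H25.M5
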